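import Mathlib

namespace Pool.Agent.MP_34f9b1_co.Quad

section defs
variable {R : Type} [CommRing R]

/-- Four times the area left after the three largest pieces (scale 1024). -/
def r4 (s x y z : R) : R := (2048 - s) * (1024 ^ 2 - 2 * (x ^ 2 + y ^ 2 + z ^ 2))

/-- The failure of the strategy with the largest piece at the apex. -/
def hB (s x y z g : R) : R :=
  1024 * (64 * (2 * g * (2048 * (1024 - y) - (2048 - s) * z) +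
    4 * (1024 - s) * (1024 - z) * (1024 - x - y - g) + 2 * s * ((1024 - y) ^ 2 - x ^ 2) -
    4 * s * g * (1024 - y) - r4 s x y z) - s * 1024 ^ 2)

/-- Twice the room left in the bottom row after three pieces. -/
def c2 (s x y z : R) : R := 2048 * (1024 - x) - (2048 - s) * (y + z)

/-- The failure of the rows above the bottom row. -/
def hA (s x y z f : R) : R :=
  (1024 + s) * (4 * (1024 - s) * (1024 - f) * (1024 - x - f) + 2 * s * (1024 - x - f) ^ 2 -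
    r4 s x y z) - 2 * s * (1024 - s) * (1024 - f) ^ 2

/-- A combination of the twelve inequalities. -/
def H (m : ℕ → R) (s x y z f : R) : R :=
  m 0 * (64 * 1024 ^ 3 * (z - y)) + m 1 * (64 * 1024 ^ 3 * (y - x)) +
  m 2 * (64 * 1024 ^ 2 * (2 * (x ^ 2 + y ^ 2 + z ^ 2) - 1024 ^ 2)) +
  m 3 * (64 * 1024 ^ 3 * (x + y - 1024)) + m 4 * hB s x y z z + m 5 * hB s x y z (1024 - x - y) +
  m 6 * (64 * 1024 ^ 2 * c2 s x y z) + m 7 * (64 * hA s x y z z) +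
  m 8 * (-(64 * 1024 ^ 2 * c2 s x y z)) +
  m 9 * (64 * (hA s x y z f + (1024 + s) * 2 * (2048 - s) * f ^ 2)) +
  m 10 * (64 * (hA s x y z f + (1024 + s) * 2 * f * (c2 s x y z - s * f))) +
  m 11 * (64 * 1024 ^ 3 * (f - z))

/-- Curvature bound in the first variable. -/
def C0 (m : ℕ → R) : R := 1024 ^ 2 * (64 * (m 7 + m 9 + m 10))
/-- Curvature bound in the second variable. -/
def C1 (m : ℕ → R) : R :=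
  1024 ^ 2 * (128 * m 2 + 256 * m 4 + 256 * m 5 + 512 * (m 7 + m 9 + m 10))
/-- Curvature bound in the third variable. -/
def C2 (m : ℕ → R) : R :=
  1024 ^ 2 * (128 * m 2 + 256 * m 4 + 512 * m 5 + 288 * (m 7 + m 9 + m 10))
/-- Curvature bound in the fourth variable. -/
def C3 (m : ℕ → R) : R :=
  1024 ^ 2 * (128 * m 2 + 256 * m 4 + 256 * m 5 + 544 * m 7 + 288 * (m 9 + m 10))
/-- Curvature bound in the fifth variable. -/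
def C4 (m : ℕ → R) : R := 1024 ^ 2 * (544 * m 9 + 256 * m 10)

end defs

/-- A quadratic function with leading coefficient at most `c`. -/
def Qd (φ : ℝ → ℝ) (c : ℝ) : Prop :=
  ∃ α, α ≤ c ∧ ∀ u, φ u = α * u ^ 2 + (φ 1 - φ 0 - α) * u + φ 0

theorem Qd.le {φ : ℝ → ℝ} {c a b t e : ℝ} (h : Qd φ c) (hc : 0 ≤ c) (h1 : a ≤ t) (h2 : t ≤ b)
    (ha : e ≤ φ a) (hb : e ≤ φ b) : e - c * (b - a) ^ 2 / 4 ≤ φ t := by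
  obtain ⟨α, hα, hφ⟩ := h
  rcases (h1.trans h2).eq_or_lt with e0 | hab
  · subst e0
    rw [le_antisymm h2 h1]
    simpa using ha
  refine le_of_mul_le_mul_left ?_ (sub_pos.2 hab)
  have k1 := mul_le_mul_of_nonneg_left ha (sub_nonneg.2 h2)
  have k2 := mul_le_mul_of_nonneg_left hb (sub_nonneg.2 h1)
  have k3 := mul_nonneg (mul_nonneg (sub_nonneg.2 hα) (sub_pos.2 hab).le)
    (mul_nonneg (sub_nonneg.2 h1) (sub_nonneg.2 h2))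
  have k4 := mul_nonneg (mul_nonneg hc (sub_pos.2 hab).le) (sq_nonneg (a + b - 2 * t))
  rw [hφ a] at k1
  rw [hφ b] at k2
  rw [hφ t]
  linarith

section quad
variable {m : ℕ → ℝ} (hm : ∀ j, 0 ≤ m j) {s : ℝ} (s0 : 0 ≤ s) (s1 : s ≤ 1024)
include hm

theorem q0 (x y z f : ℝ) : Qd (fun u => H m u x y z f) (C0 m) := by
  refine ⟨64 * ((m 7 + m 9 + m 10) * (1024 ^ 2 - 2 * y ^ 2 - 2 * z ^ 2) - m 9 * (2 * f ^ 2) +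
    m 10 * (2 * f * (y + z - f))), ?_, fun u => ?_⟩
  · have k1 := mul_nonneg (add_nonneg (hm 7) (hm 9)) (add_nonneg (sq_nonneg y) (sq_nonneg z))
    have k2 := mul_nonneg (hm 9) (sq_nonneg f)
    have k3 := mul_nonneg (hm 10) (add_nonneg (add_nonneg (sq_nonneg y) (sq_nonneg z))
      (add_nonneg (sq_nonneg (y - f)) (sq_nonneg (z - f))))
    simp only [C0]
    linarith
  · simp only [H, hA, hB, c2, r4]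
    ring

include s0 s1

theorem q1 (y z f : ℝ) : Qd (fun u => H m s u y z f) (C1 m) := by
  refine ⟨128 * 1024 ^ 2 * m 2 + 256 * 1024 * (1024 - s) * (m 4 + m 5) +
    256 * 1024 * (1024 + s) * (m 7 + m 9 + m 10), ?_, fun u => ?_⟩
  · have k1 := mul_nonneg s0 (add_nonneg (hm 4) (hm 5))
    have k2 := mul_nonneg (sub_nonneg.2 s1) (add_nonneg (add_nonneg (hm 7) (hm 9)) (hm 10))
    simp only [C1]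
    linarith
  · simp only [H, hA, hB, c2, r4]
    ring

omit s1 in
theorem q2 (x z f : ℝ) : Qd (fun u => H m s x u z f) (C2 m) := by
  refine ⟨128 * 1024 ^ 2 * m 2 + 256 * 1024 ^ 2 * m 4 + 256 * 1024 * (2048 - s) * m 5 +
    128 * (1024 + s) * (2048 - s) * (m 7 + m 9 + m 10), ?_, fun u => ?_⟩
  · have k1 := mul_nonneg s0 (hm 5)
    have k2 := mul_nonneg (sq_nonneg (s - 512)) (add_nonneg (add_nonneg (hm 7) (hm 9)) (hm 10))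
    simp only [C2]
    linarith
  · simp only [H, hA, hB, c2, r4]
    ring

omit s1 in
theorem q3 (x y f : ℝ) : Qd (fun u => H m s x y u f) (C3 m) := by
  refine ⟨128 * 1024 ^ 2 * m 2 + 256 * 1024 * (1024 - s) * m 4 + 128 * 1024 * (2048 - s) * m 5 +
    128 * (4 * 1024 ^ 2 + 1024 * s - s ^ 2) * m 7 +
    128 * (1024 + s) * (2048 - s) * (m 9 + m 10), ?_, fun u => ?_⟩
  · have k1 := mul_nonneg s0 (hm 4)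
    have k1 := mul_nonneg s0 (hm 5)
    have k2 := mul_nonneg (sq_nonneg (s - 512)) (hm 7)
    have k2 := mul_nonneg (sq_nonneg (s - 512)) (add_nonneg (hm 9) (hm 10))
    simp only [C3]
    linarith
  · simp only [H, hA, hB, c2, r4]
    ring

omit s1 in
theorem q4 (x y z : ℝ) : Qd (fun u => H m s x y z u) (C4 m) := by
  refine ⟨128 * (2 * 1024 ^ 2 + (1024 + s) * (2048 - s)) * m 9 +
    128 * (2 * 1024 ^ 2 - s * (1024 + s)) * m 10, ?_, fun u => ?_⟩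
  · have k1 := mul_nonneg (sq_nonneg (s - 512)) (hm 9)
    have k2 := mul_nonneg (mul_nonneg s0 (show 0 ≤ 1024 + s by linarith)) (hm 10)
    simp only [C4]
    linarith
  · simp only [H, hA, hB, c2, r4]
    ring

end quad

/-- Certificates: multipliers at a leaf, or a bisection of one coordinate. -/
inductive Tr where
  | L : List ℕ → Tr
  | S : ℕ → Tr → Tr → Tr

/-- The test at the vertices of a box. -/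
def leaf (m : ℕ → ℤ) (a0 b0 a1 b1 a2 b2 a3 b3 a4 b4 : ℤ) : Bool :=
  [a0, b0].all fun s => [a1, b1].all fun x => [a2, b2].all fun y => [a3, b3].all fun z =>
    [a4, b4].all fun f => decide (C0 m * (b0 - a0) ^ 2 + C1 m * (b1 - a1) ^ 2 +
      C2 m * (b2 - a2) ^ 2 + C3 m * (b3 - a3) ^ 2 + C4 m * (b4 - a4) ^ 2 + 4 ≤ 4 * H m s x y z f)

/-- The checker; `k` switches multipliers off. -/
def chk (k : List ℕ) : Tr → ℤ → ℤ → ℤ → ℤ → ℤ → ℤ → ℤ → ℤ → ℤ → ℤ → Bool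
  | .L l, a0, b0, a1, b1, a2, b2, a3, b3, a4, b4 =>
    leaf (fun j => ((k.getD j 0 * l.getD j 0 : ℕ) : ℤ)) a0 b0 a1 b1 a2 b2 a3 b3 a4 b4
  | .S i p q, a0, b0, a1, b1, a2, b2, a3, b3, a4, b4 =>
    match i with
    | 0 => chk k p a0 ((a0 + b0) / 2) a1 b1 a2 b2 a3 b3 a4 b4 &&
        chk k q ((a0 + b0) / 2) b0 a1 b1 a2 b2 a3 b3 a4 b4
    | 1 => chk k p a0 b0 a1 ((a1 + b1) / 2) a2 b2 a3 b3 a4 b4 &&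
        chk k q a0 b0 ((a1 + b1) / 2) b1 a2 b2 a3 b3 a4 b4
    | 2 => chk k p a0 b0 a1 b1 a2 ((a2 + b2) / 2) a3 b3 a4 b4 &&
        chk k q a0 b0 a1 b1 ((a2 + b2) / 2) b2 a3 b3 a4 b4
    | 3 => chk k p a0 b0 a1 b1 a2 b2 a3 ((a3 + b3) / 2) a4 b4 &&
        chk k q a0 b0 a1 b1 a2 b2 ((a3 + b3) / 2) b3 a4 b4
    | _ => chk k p a0 b0 a1 b1 a2 b2 a3 b3 a4 ((a4 + b4) / 2) &&
        chk k q a0 b0 a1 b1 a2 b2 a3 b3 ((a4 + b4) / 2) b4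

theorem leaf_snd (m : ℕ → ℕ) {a0 b0 a1 b1 a2 b2 a3 b3 a4 b4 : ℤ} {s x y z f : ℝ}
    (h : leaf (fun j => (m j : ℤ)) a0 b0 a1 b1 a2 b2 a3 b3 a4 b4 = true) (ha : 0 ≤ a0)
    (hb : b0 ≤ 1024) (i0 : a0 ≤ s ∧ s ≤ b0) (i1 : a1 ≤ x ∧ x ≤ b1) (i2 : a2 ≤ y ∧ y ≤ b2)
    (i3 : a3 ≤ z ∧ z ≤ b3) (i4 : a4 ≤ f ∧ f ≤ b4) : 1 ≤ H (fun j => (m j : ℝ)) s x y z f := by
  simp only [leaf, List.all_eq_true, decide_eq_true_eq] at h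
  set μ : ℕ → ℝ := fun j => (m j : ℝ) with hμ
  have hm : ∀ j, 0 ≤ μ j := fun j => Nat.cast_nonneg _
  have ha' : (0 : ℝ) ≤ a0 := by exact_mod_cast ha
  have hb' : (b0 : ℝ) ≤ 1024 := by exact_mod_cast hb
  have hs : ∀ S ∈ [a0, b0], (0 : ℝ) ≤ S ∧ (S : ℝ) ≤ 1024 := by
    simp only [List.forall_mem_cons, List.not_mem_nil, false_imp_iff, implies_true, and_true]
    exact ⟨⟨ha', by linarith [i0.1, i0.2]⟩, by linarith [i0.1, i0.2], hb'⟩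
  have c0 : 0 ≤ C0 μ := by have := hm 7; have := hm 9; have := hm 10; simp only [C0]; positivity
  have c1 : 0 ≤ C1 μ := by simp only [C1, hμ]; positivity
  have c2' : 0 ≤ C2 μ := by simp only [C2, hμ]; positivity
  have c3 : 0 ≤ C3 μ := by simp only [C3, hμ]; positivity
  have c4 : 0 ≤ C4 μ := by simp only [C4, hμ]; positivity
  obtain ⟨e, he⟩ : ∃ e : ℝ, e = (C0 μ * (b0 - a0) ^ 2 + C1 μ * (b1 - a1) ^ 2 +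
    C2 μ * (b2 - a2) ^ 2 + C3 μ * (b3 - a3) ^ 2 + C4 μ * (b4 - a4) ^ 2 + 4) / 4 := ⟨_, rfl⟩
  have V : ∀ S ∈ [a0, b0], ∀ X ∈ [a1, b1], ∀ Y ∈ [a2, b2], ∀ Z ∈ [a3, b3], ∀ F ∈ [a4, b4],
      e ≤ H μ S X Y Z F := by
    intro S hS X hX Y hY Z hZ F hF
    have k := (Int.cast_le (R := ℝ)).2 (h S hS X hX Y hY Z hZ F hF)
    simp only [H, hA, hB, c2, r4, C0, C1, C2, C3, C4] at k
    push_cast at k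
    simp only [he, H, hA, hB, c2, r4, C0, C1, C2, C3, C4, hμ]
    linarith
  have V4 := fun (S : ℤ) hS (X : ℤ) hX (Y : ℤ) hY (Z : ℤ) hZ =>
    (q4 hm (hs S hS).1 X Y Z).le c4 i4.1 i4.2
    (V S hS X hX Y hY Z hZ a4 (by simp)) (V S hS X hX Y hY Z hZ b4 (by simp))
  have V3 := fun (S : ℤ) hS (X : ℤ) hX (Y : ℤ) hY =>
    (q3 hm (hs S hS).1 X Y f).le c3 i3.1 i3.2
    (V4 S hS X hX Y hY a3 (by simp)) (V4 S hS X hX Y hY b3 (by simp))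
  have V2 := fun (S : ℤ) hS (X : ℤ) hX =>
    (q2 hm (hs S hS).1 X z f).le c2' i2.1 i2.2
    (V3 S hS X hX a2 (by simp)) (V3 S hS X hX b2 (by simp))
  have V1 := fun (S : ℤ) hS => (q1 hm (hs S hS).1 (hs S hS).2 y z f).le c1 i1.1 i1.2
    (V2 S hS a1 (by simp)) (V2 S hS b1 (by simp))
  have V0 := (q0 hm x y z f).le c0 i0.1 i0.2 (V1 a0 (by simp)) (V1 b0 (by simp))
  linarith

theorem chk_snd (k : List ℕ) {s x y z f : ℝ}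
    (hH : ∀ l : List ℕ, H (fun j => ((k.getD j 0 * l.getD j 0 : ℕ) : ℝ)) s x y z f ≤ 0) :
    ∀ (T : Tr) (a0 b0 a1 b1 a2 b2 a3 b3 a4 b4 : ℤ), chk k T a0 b0 a1 b1 a2 b2 a3 b3 a4 b4 = true →
      0 ≤ a0 → a0 ≤ b0 → b0 ≤ 1024 → (a0 ≤ s ∧ s ≤ b0) → (a1 ≤ x ∧ x ≤ b1) → (a2 ≤ y ∧ y ≤ b2) →
      (a3 ≤ z ∧ z ≤ b3) → (a4 ≤ f ∧ f ≤ b4) → False := by
  intro T
  induction T with
  | L l =>
    intro a0 b0 a1 b1 a2 b2 a3 b3 a4 b4 h ha _ hb i0 i1 i2 i3 i4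
    linarith [leaf_snd (fun j => k.getD j 0 * l.getD j 0) h ha hb i0 i1 i2 i3 i4, hH l]
  | S i p q ihp ihq =>
    intro a0 b0 a1 b1 a2 b2 a3 b3 a4 b4 h ha hab hb i0 i1 i2 i3 i4
    rcases i with _ | _ | _ | _ | i <;> simp only [chk, Bool.and_eq_true] at h
    · rcases le_total s ((a0 + b0) / 2 : ℤ) with c | c
      · exact ihp _ _ _ _ _ _ _ _ _ _ h.1 ha (by omega) (by omega) ⟨i0.1, c⟩ i1 i2 i3 i4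
      · exact ihq _ _ _ _ _ _ _ _ _ _ h.2 (by omega) (by omega) hb ⟨c, i0.2⟩ i1 i2 i3 i4
    · rcases le_total x ((a1 + b1) / 2 : ℤ) with c | c
      · exact ihp _ _ _ _ _ _ _ _ _ _ h.1 ha hab hb i0 ⟨i1.1, c⟩ i2 i3 i4
      · exact ihq _ _ _ _ _ _ _ _ _ _ h.2 ha hab hb i0 ⟨c, i1.2⟩ i2 i3 i4
    · rcases le_total y ((a2 + b2) / 2 : ℤ) with c | c
      · exact ihp _ _ _ _ _ _ _ _ _ _ h.1 ha hab hb i0 i1 ⟨i2.1, c⟩ i3 i4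
      · exact ihq _ _ _ _ _ _ _ _ _ _ h.2 ha hab hb i0 i1 ⟨c, i2.2⟩ i3 i4
    · rcases le_total z ((a3 + b3) / 2 : ℤ) with c | c
      · exact ihp _ _ _ _ _ _ _ _ _ _ h.1 ha hab hb i0 i1 i2 ⟨i3.1, c⟩ i4
      · exact ihq _ _ _ _ _ _ _ _ _ _ h.2 ha hab hb i0 i1 i2 ⟨c, i3.2⟩ i4
    · rcases le_total f ((a4 + b4) / 2 : ℤ) with c | c
      · exact ihp _ _ _ _ _ _ _ _ _ _ h.1 ha hab hb i0 i1 i2 i3 ⟨i4.1, c⟩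
      · exact ihq _ _ _ _ _ _ _ _ _ _ h.2 ha hab hb i0 i1 i2 i3 ⟨c, i4.2⟩

/-- Certificate for the first system. -/
def T1 : Tr :=
  (.S 2 (.S 2 (.L [3, 0, 0, 0, 2, 0, 2]) (.S 1 (.L [21, 0, 0, 0, 0, 0, 11]) (.S 0 (.S 2 (.L [1, 0,
  0, 0, 6, 0, 1]) (.S 1 (.L [288, 0, 0, 0, 0, 405, 241, 90]) (.L [0, 0, 0, 0, 0, 5, 2, 1]))) (.L
  [2, 0, 0, 0, 0, 3, 3])))) (.S 0 (.S 3 (.S 3 (.L [0, 0, 0, 0, 0, 0, 5, 3]) (.S 2 (.S 1 (.L [0, 0,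
  0, 0, 0, 0, 5, 3]) (.L [0, 0, 0, 0, 0, 1, 4, 3])) (.L [0, 0, 0, 0, 0, 0, 3, 5]))) (.S 3 (.S 1
  (.S 0 (.S 2 (.S 1 (.L [17, 0, 0, 0, 0, 0, 6, 10]) (.S 0 (.L [4, 0, 0, 0, 0, 0, 1, 2]) (.L [15,
  0, 0, 0, 0, 0, 7, 10]))) (.L [0, 4, 0, 0, 0, 0, 0, 4])) (.S 2 (.S 0 (.S 1 (.L [62, 0, 0, 0, 0,
  0, 28, 39]) (.S 3 (.L [2, 0, 0, 0, 0, 1, 2, 2]) (.L [40, 0, 0, 0, 0, 17, 35, 37]))) (.S 2 (.L
  [0, 0, 0, 0, 0, 4, 4]) (.L [0, 0, 0, 0, 0, 3, 3, 1]))) (.L [0, 0, 0, 0, 0, 71, 366, 587]))) (.S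
  2 (.S 1 (.L [17, 0, 0, 0, 0, 51, 29, 31]) (.L [0, 0, 0, 0, 0, 7, 0, 1])) (.L [0, 0, 0, 0, 0, 2,
  2, 4]))) (.S 1 (.S 0 (.L [22, 5, 0, 0, 0, 0, 0, 5]) (.L [71, 0, 0, 0, 0, 5, 21, 31])) (.L [4, 0,
  0, 0, 0, 3, 0, 1])))) (.S 0 (.S 3 (.S 3 (.L [0, 0, 0, 0, 0, 0, 6, 2]) (.L [0, 0, 0, 0, 0, 13,
  14, 4])) (.S 1 (.L [0, 0, 0, 0, 0, 10, 15, 6]) (.L [0, 0, 0, 0, 0, 12, 15, 6]))) (.L [1, 0, 4,
  0, 0, 0, 4]))))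

/-- Certificate for the second system. -/
def T2 : Tr :=
  (.S 4 (.S 0 (.S 4 (.S 3 (.L [0, 0, 0, 0, 3, 0, 0, 0, 0, 0, 4, 1]) (.L [0, 0, 0, 0, 4, 0, 0, 0,
  0, 0, 4])) (.S 1 (.S 3 (.S 3 (.L [0, 0, 0, 0, 1, 0, 0, 0, 0, 0, 1, 5]) (.S 2 (.S 2 (.L [0, 0, 0,
  0, 8]) (.S 1 (.L [0, 0, 0, 0, 22, 0, 0, 0, 0, 7, 0, 3]) (.L [0, 0, 0, 0, 22, 0, 0, 0, 0, 7, 0,
  3]))) (.S 2 (.S 0 (.L [0, 0, 0, 0, 0, 0, 0, 0, 0, 2, 1, 5]) (.S 1 (.L [0, 0, 0, 0, 64, 0, 0, 0,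
  0, 33, 2, 30]) (.L [0, 0, 0, 0, 64, 0, 0, 0, 0, 34, 0, 30]))) (.L [0, 0, 0, 0, 0, 0, 0, 0, 0, 2,
  1, 5])))) (.S 3 (.S 2 (.S 2 (.L [0, 0, 0, 0, 7, 0, 0, 0, 0, 0, 1]) (.S 1 (.L [0, 0, 0, 0, 6, 0,
  0, 0, 0, 2]) (.L [0, 0, 0, 0, 6, 0, 0, 0, 0, 2]))) (.S 2 (.S 0 (.L [0, 0, 0, 0, 0, 0, 0, 0, 0,
  8]) (.S 1 (.L [0, 0, 0, 0, 21, 0, 0, 0, 0, 11, 1]) (.L [0, 0, 0, 0, 5, 0, 0, 0, 0, 3]))) (.L [0,
  0, 0, 0, 0, 0, 0, 0, 0, 8]))) (.L [6, 0, 0, 0, 0, 0, 0, 0, 0, 2]))) (.S 3 (.S 3 (.L [0, 0, 0, 0,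
  1, 0, 0, 0, 0, 0, 1, 5]) (.L [0, 0, 0, 0, 330, 0, 0, 0, 0, 293, 0, 402])) (.S 3 (.L [0, 0, 0, 0,
  542, 0, 0, 0, 0, 482]) (.L [0, 0, 0, 0, 4, 0, 0, 0, 0, 4]))))) (.S 4 (.S 3 (.L [0, 0, 0, 0, 11,
  0, 0, 0, 0, 1, 13, 7]) (.L [0, 0, 0, 0, 4, 0, 0, 0, 0, 0, 4])) (.S 3 (.S 3 (.L [0, 0, 0, 0, 5,
  0, 0, 0, 0, 0, 6, 20]) (.S 1 (.S 2 (.S 2 (.L [0, 0, 0, 0, 8]) (.L [0, 0, 0, 0, 8])) (.S 2 (.S 0
  (.S 1 (.L [0, 0, 0, 0, 15, 0, 0, 0, 0, 8, 0, 8]) (.L [0, 0, 0, 0, 15, 0, 0, 0, 0, 8, 0, 8])) (.L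
  [0, 0, 0, 0, 3, 0, 0, 0, 0, 1, 1, 2])) (.L [0, 0, 0, 0, 0, 0, 0, 0, 0, 3, 1, 4]))) (.S 2 (.L [0,
  0, 0, 0, 8]) (.S 2 (.L [0, 0, 0, 0, 9, 6, 0, 0, 0, 6, 0, 11]) (.L [0, 0, 0, 0, 0, 0, 0, 0, 0, 3,
  1, 5]))))) (.S 3 (.S 1 (.S 2 (.S 2 (.L [0, 0, 0, 0, 8]) (.L [0, 0, 0, 0, 8])) (.S 2 (.S 0 (.S 1
  (.L [0, 0, 0, 0, 21, 0, 0, 0, 0, 11, 1]) (.L [0, 0, 0, 0, 5, 0, 0, 0, 0, 3])) (.L [0, 0, 0, 0,
  5, 0, 0, 0, 0, 2, 1])) (.L [0, 0, 0, 0, 0, 0, 0, 0, 0, 5, 3]))) (.S 2 (.L [0, 0, 0, 0, 8]) (.S 2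
  (.L [0, 0, 0, 0, 0, 7, 0, 0, 0, 1]) (.L [0, 0, 0, 0, 0, 0, 0, 0, 0, 8])))) (.L [5, 0, 0, 0, 0,
  0, 0, 0, 0, 1, 3]))))) (.S 2 (.S 0 (.S 2 (.L [3, 0, 0, 0, 5]) (.S 3 (.S 4 (.S 1 (.S 2 (.L [3, 0,
  0, 0, 2, 0, 0, 0, 0, 0, 1, 2]) (.S 3 (.L [0, 0, 0, 0, 0, 0, 0, 0, 0, 0, 0, 8]) (.L [0, 0, 0, 0,
  407, 0, 0, 0, 0, 73, 95, 450]))) (.S 3 (.L [0, 0, 0, 0, 0, 0, 0, 0, 0, 0, 0, 8]) (.L [0, 0, 0,
  0, 20, 0, 0, 0, 0, 6, 0, 6]))) (.L [0, 0, 0, 0, 0, 0, 0, 0, 0, 0, 0, 8])) (.S 4 (.S 1 (.S 0 (.L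
  [4, 0, 0, 0, 0, 0, 0, 0, 0, 2, 0, 2]) (.S 2 (.L [0, 0, 0, 0, 8]) (.S 3 (.L [0, 0, 0, 0, 52, 0,
  0, 0, 0, 16, 11, 50]) (.L [5, 0, 0, 0, 0, 0, 0, 0, 0, 3])))) (.S 3 (.L [0, 0, 0, 0, 20, 0, 0, 0,
  0, 6, 0, 6]) (.L [0, 0, 0, 0, 0, 4, 0, 0, 0, 4]))) (.L [4, 0, 0, 0, 0, 0, 0, 0, 0, 0, 0, 4]))))
  (.S 2 (.L [1, 0, 0, 0, 7]) (.S 3 (.S 1 (.S 3 (.L [0, 0, 0, 0, 0, 0, 0, 0, 0, 0, 0, 8]) (.L [0,
  0, 0, 0, 8])) (.L [0, 0, 0, 0, 8])) (.S 3 (.S 1 (.L [0, 0, 0, 0, 8]) (.L [0, 0, 0, 0, 8])) (.L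
  [8]))))) (.S 4 (.S 3 (.S 0 (.S 3 (.L [0, 0, 0, 0, 0, 0, 0, 0, 0, 0, 0, 8]) (.S 2 (.S 1 (.S 0 (.L
  [0, 0, 0, 0, 0, 0, 0, 0, 0, 3, 1, 5]) (.S 1 (.L [0, 0, 0, 0, 62, 0, 0, 0, 0, 32, 2, 32]) (.L [0,
  0, 0, 0, 64, 0, 0, 0, 0, 34, 0, 30]))) (.L [0, 0, 0, 0, 1, 2, 0, 0, 0, 1, 0, 3])) (.L [0, 3, 0,
  0, 0, 0, 0, 0, 0, 2, 0, 3]))) (.S 2 (.S 3 (.L [0, 0, 0, 0, 0, 0, 0, 0, 0, 0, 0, 8]) (.S 1 (.S 0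
  (.S 1 (.L [0, 0, 0, 0, 15, 0, 0, 0, 0, 8, 0, 8]) (.L [0, 0, 0, 0, 15, 0, 0, 0, 0, 8, 0, 8])) (.L
  [0, 0, 0, 0, 3, 0, 0, 0, 0, 1, 1, 3])) (.L [0, 0, 0, 0, 0, 4, 0, 0, 0, 1, 0, 4]))) (.S 1 (.L [0,
  0, 0, 0, 0, 0, 0, 0, 0, 3, 1, 4]) (.L [0, 0, 0, 0, 0, 0, 0, 0, 0, 4, 0, 4])))) (.S 3 (.S 1 (.S 4
  (.S 2 (.S 0 (.S 0 (.L [0, 0, 0, 0, 0, 0, 0, 0, 0, 3, 0, 5]) (.S 1 (.L [0, 0, 0, 0, 4, 0, 0, 0,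
  0, 2, 0, 2]) (.L [0, 0, 0, 0, 4, 0, 0, 0, 0, 2, 0, 2]))) (.S 0 (.S 1 (.L [0, 0, 0, 0, 4, 0, 0,
  0, 0, 2, 0, 2]) (.L [0, 0, 0, 0, 4, 0, 0, 0, 0, 2, 0, 2])) (.L [0, 0, 0, 0, 3, 0, 0, 0, 0, 1, 1,
  3]))) (.S 0 (.L [0, 0, 0, 0, 0, 0, 0, 0, 0, 8]) (.L [0, 0, 0, 0, 0, 0, 0, 0, 0, 2, 2, 4]))) (.S
  0 (.L [3, 0, 0, 0, 0, 0, 0, 0, 0, 1, 0, 5]) (.L [8, 0, 0, 0, 3, 0, 0, 0, 0, 4, 0, 18]))) (.S 2
  (.S 0 (.L [0, 0, 0, 0, 2, 3, 0, 0, 0, 2, 0, 2]) (.L [0, 0, 0, 0, 0, 7, 0, 0, 0, 1])) (.L [0, 0,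
  0, 0, 0, 21, 0, 0, 0, 6, 0, 6]))) (.L [5, 2, 0, 0, 0, 0, 0, 0, 0, 1]))) (.L [341, 163, 0, 0, 0,
  0, 0, 0, 0, 59, 0, 460]))))

theorem chk1 : chk [1, 1, 1, 1, 1, 1, 1, 1] T1 0 1024 352 640 0 512 0 512 0 0 = true := by
  decide +kernel

theorem chk2 :
    chk [1, 1, 1, 1, 1, 1, 0, 0, 1, 1, 1, 1] T2 0 1024 352 640 0 512 0 512 0 512 = true := by
  decide +kernel

end Pool.Agent.MP_34f9b1_co.Quad
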