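import Pool.Agent.MP_34f9b1_co.Geom
import Pool.Agent.MP_34f9b1_co.Quad.Row

namespace Pool.Agent.MP_34f9b1_co.Quad

/-- The set is an affine image of a set in normal form. -/
def Good (F : Set E) : Prop :=
  ∃ (K : Set (ℝ × ℝ)) (s : ℝ) (L : E ≃ₗ[ℝ] ℝ × ℝ) (c : E), NF K s ∧ ∀ x, x ∈ F ↔ L (x - c) ∈ K

theorem comb {p q X Y α β γ δ : ℝ} (h0 : 0 ≤ α) (h1 : 0 ≤ β) (h2 : 0 ≤ γ) (h3 : 0 ≤ δ)
    (h : α + β + γ + δ = 1) (hX : X = β + δ * p) (hY : Y = γ + δ * q) :
    (X, Y) ∈ convexHull ℝ ({(0, 0), (1, 0), (0, 1), (p, q)} : Set (ℝ × ℝ)) := by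
  have := (convex_convexHull ℝ ({(0, 0), (1, 0), (0, 1), (p, q)} : Set (ℝ × ℝ))).sum_mem
    (t := Finset.univ) (w := ![α, β, γ, δ]) (z := ![(0, 0), (1, 0), (0, 1), (p, q)])
    (fun i _ => by fin_cases i <;> assumption) (by simpa [Fin.sum_univ_four] using h)
    (fun i _ => subset_convexHull _ _ (by fin_cases i <;> simp))
  convert this using 1
  simp [Fin.sum_univ_four, hX, hY]

theorem nf_hull {p q : ℝ} (h : (0 ≤ p ∧ 0 ≤ q ∧ p + q ≤ 1) ∨ (p ≤ q ∧ q ≤ 1 ∧ 1 < p + q)) :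
    ∃ s, NF (convexHull ℝ ({(0, 0), (1, 0), (0, 1), (p, q)} : Set (ℝ × ℝ))) s := by
  have out : ∀ s : ℝ, 0 ≤ s → s ≤ 1 → 0 ≤ p → 0 ≤ q → q ≤ 1 → p + s * q ≤ 1 →
      ∀ u ∈ convexHull ℝ ({(0, 0), (1, 0), (0, 1), (p, q)} : Set (ℝ × ℝ)),
        0 ≤ u.1 ∧ 0 ≤ u.2 ∧ u.2 ≤ 1 ∧ u.1 + s * u.2 ≤ 1 := by
    intro s s0 s1 p0 q0 q1 pq
    refine convexHull_min (t := {u : ℝ × ℝ | 0 ≤ u.1 ∧ 0 ≤ u.2 ∧ u.2 ≤ 1 ∧ u.1 + s * u.2 ≤ 1}) ?_ ?_
    · rintro u (rfl | rfl | rfl | rfl) <;> simp [*]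
    · rintro u ⟨u1, u2, u3, u4⟩ v ⟨v1, v2, v3, v4⟩ a b ha hb hab
      simp only [Set.mem_ofPred_eq, Prod.fst_add, Prod.snd_add, Prod.smul_fst, Prod.smul_snd,
        smul_eq_mul]
      refine ⟨by positivity, by positivity, ?_, ?_⟩
      · nlinarith [mul_le_mul_of_nonneg_left u3 ha, mul_le_mul_of_nonneg_left v3 hb]
      · nlinarith [mul_le_mul_of_nonneg_left u4 ha, mul_le_mul_of_nonneg_left v4 hb]
  rcases h with ⟨p0, q0, pq⟩ | ⟨pq, q1, h⟩
  · refine ⟨1, zero_le_one, le_rfl, convex_convexHull _ _,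
      out 1 zero_le_one le_rfl p0 q0 (by linarith) (by linarith), ?_⟩
    rintro ⟨X, Y⟩ h1 h2 h3 -
    exact comb (α := 1 - X - Y) (δ := 0) (by linarith) h1 h2 le_rfl (by ring) (by ring) (by ring)
  · have q0 : 0 < q := by linarith
    have p0 : 0 < p := by linarith
    obtain ⟨s, hs⟩ : ∃ s, s * q = 1 - p := ⟨(1 - p) / q, div_mul_cancel₀ _ q0.ne'⟩
    have s0 : 0 ≤ s := by
      by_contra hc
      nlinarith
    have s1 : s ≤ 1 := by
      by_contra hc
      nlinarith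
    refine ⟨s, s0, s1, convex_convexHull _ _, out s s0 s1 p0.le q0.le q1 (by linarith), ?_⟩
    rintro ⟨X, Y⟩ h1 h2 h3 h4
    simp only at h1 h2 h3 h4
    rcases le_total (X + Y) 1 with c | c
    · exact comb (α := 1 - X - Y) (δ := 0) (by linarith) h1 h2 le_rfl (by ring) (by ring) (by ring)
    · have hd : 0 < p + q - 1 := by linarith
      obtain ⟨δ, hδ⟩ : ∃ δ, δ * (p + q - 1) = X + Y - 1 := ⟨_, div_mul_cancel₀ _ hd.ne'⟩
      have d0 : 0 ≤ δ := by
        by_contra hc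
        nlinarith
      have k1 : 1 - q ≤ s * p := by
        refine le_of_mul_le_mul_left ?_ q0
        nlinarith [mul_nonneg (sub_nonneg.2 pq) hd.le]
      refine comb (α := 0) (β := X - δ * p) (γ := Y - δ * q) le_rfl ?_ ?_ d0 (by linarith)
        (by ring) (by ring)
      · refine le_of_mul_le_mul_left ?_ hd
        have := mul_le_mul_of_nonneg_left k1 h1
        have := mul_le_mul_of_nonneg_left h4 p0.le
        have : p * (δ * (p + q - 1)) = p * (X + Y - 1) := by rw [hδ]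
        linarith
      · refine le_of_mul_le_mul_left ?_ hd
        have := mul_le_mul_of_nonneg_left h3 q0.le
        have : Y * (s * q) = Y * (1 - p) := by rw [hs]
        have : q * (δ * (p + q - 1)) = q * (X + Y - 1) := by rw [hδ]
        linarith

/-- Twice the oriented area of a triangle. -/
def ar (P Q R : E) : ℝ := (Q 0 - P 0) * (R 1 - P 1) - (Q 1 - P 1) * (R 0 - P 0)

theorem core {B A C D : E} (hδ : ar B A C ≠ 0) {α p q : ℝ} (h1 : α + p + q = 1)
    (hD : D = α • B + p • A + q • C)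
    (h : (0 ≤ p ∧ 0 ≤ q ∧ p + q ≤ 1) ∨ (p ≤ q ∧ q ≤ 1 ∧ 1 < p + q)) :
    Good (convexHull ℝ {B, A, C, D}) := by
  obtain ⟨s, hs⟩ := nf_hull h
  let M : (ℝ × ℝ) →ₗ[ℝ] E :=
    (LinearMap.fst ℝ ℝ ℝ).smulRight (A - B) + (LinearMap.snd ℝ ℝ ℝ).smulRight (C - B)
  have hM : ∀ u : ℝ × ℝ, M u = u.1 • (A - B) + u.2 • (C - B) := fun u => rfl
  have inj : Function.Injective M := by
    rw [injective_iff_map_eq_zero]
    rintro ⟨X, Y⟩ hu
    have e0 := congrArg (fun v : E => v 0) hu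
    have e1 := congrArg (fun v : E => v 1) hu
    simp only [hM, PiLp.add_apply, PiLp.smul_apply, PiLp.sub_apply, smul_eq_mul,
      PiLp.zero_apply] at e0 e1
    refine Prod.ext (mul_left_cancel₀ hδ ?_) (mul_left_cancel₀ hδ ?_)
    · simp only [ar, Prod.fst_zero]
      linear_combination (C 1 - B 1) * e0 - (C 0 - B 0) * e1
    · simp only [ar, Prod.snd_zero]
      linear_combination (A 0 - B 0) * e1 - (A 1 - B 1) * e0
  let N := LinearMap.linearEquivOfInjective M inj (by simp)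
  have hN : ∀ u, N u = M u := fun u => rfl
  let f : (ℝ × ℝ) →ᵃ[ℝ] E := AffineMap.const ℝ (ℝ × ℝ) B + M.toAffineMap
  have hf : ∀ u, f u = B + M u := fun u => rfl
  have him : f '' convexHull ℝ {(0, 0), (1, 0), (0, 1), (p, q)} = convexHull ℝ {B, A, C, D} := by
    rw [AffineMap.image_convexHull]
    congr 1
    have : B + (p • (A - B) + q • (C - B)) = D := by
      rw [hD, show α = 1 - p - q by linarith]
      module
    simp [Set.image_insert_eq, hf, hM, this]
  refine ⟨_, s, N.symm, B, hs, fun x => ?_⟩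
  rw [← him]
  constructor
  · rintro ⟨u, hu, rfl⟩
    rwa [hf, add_sub_cancel_left, ← hN, LinearEquiv.symm_apply_apply]
  · intro hx
    exact ⟨_, hx, by rw [hf, ← hN, LinearEquiv.apply_symm_apply, add_sub_cancel]⟩

theorem core' {B A C D : E} (hδ : ar B A C ≠ 0) {α p q : ℝ} (h1 : α + p + q = 1)
    (hD : D = α • B + p • A + q • C) (hα : α < 0) (hp : p ≤ 1) (hq : q ≤ 1) :
    Good (convexHull ℝ {B, A, C, D}) := by
  rcases le_total p q with c | c
  · exact core hδ h1 hD (Or.inr ⟨c, hq, by linarith⟩)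
  · rw [Set.insert_comm A]
    refine core (α := α) (p := q) (q := p) (fun h => hδ ?_) (by linarith) (by rw [hD]; abel)
      (Or.inr ⟨c, hp, by linarith⟩)
    simp only [ar] at h ⊢
    linarith

theorem four {a b c d : E} (hδ : ar a b c ≠ 0) (h1 : ar b c d ^ 2 ≤ ar a b c ^ 2)
    (h2 : ar a c d ^ 2 ≤ ar a b c ^ 2) (h3 : ar a b d ^ 2 ≤ ar a b c ^ 2) :
    Good (convexHull ℝ {a, b, c, d}) := by
  have le1 : ∀ u : ℝ, u ^ 2 ≤ ar a b c ^ 2 → u / ar a b c ≤ 1 := fun u hu => by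
    refine (le_abs_self _).trans ?_
    rw [abs_div, div_le_one (abs_pos.2 hδ)]
    exact sq_le_sq.1 hu
  have k1 := le1 _ h1
  have k2 := le1 (-ar a c d) (by rwa [neg_sq])
  have k3 := le1 _ h3
  have hs : ar b c d / ar a b c + -ar a c d / ar a b c + ar a b d / ar a b c = 1 := by
    field_simp
    simp only [ar]
    ring
  have hD : d = (ar b c d / ar a b c) • a + (-ar a c d / ar a b c) • b +
      (ar a b d / ar a b c) • c := by
    ext i
    simp only [PiLp.add_apply, PiLp.smul_apply, smul_eq_mul]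
    field_simp
    fin_cases i <;> simp only [ar, Fin.zero_eta, Fin.mk_one, Fin.isValue] <;> ring
  generalize ar b c d / ar a b c = α at *
  generalize -ar a c d / ar a b c = β at *
  generalize ar a b d / ar a b c = γ at *
  by_cases c1 : α < 0
  · exact core' hδ hs hD c1 k2 k3
  by_cases c2 : β < 0
  · rw [Set.insert_comm a]
    refine core' (α := β) (p := α) (q := γ) (fun h => hδ ?_) (by linarith) (by rw [hD]; abel)
      c2 k1 k3
    simp only [ar] at h ⊢
    linarith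
  by_cases c3 : γ < 0
  · rw [Set.insert_comm b, Set.insert_comm a]
    refine core' (α := γ) (p := α) (q := β) (fun h => hδ ?_) (by linarith) (by rw [hD]; abel)
      c3 k1 k2
    simp only [ar] at h ⊢
    linarith
  · exact core hδ hs hD (Or.inl ⟨by linarith, by linarith, by linarith⟩)

theorem flat {S : Set E} {a e : E} (he : e ≠ a) (h : ∀ p ∈ S, ar a e p = 0) :
    ¬(interior (convexHull ℝ S)).Nonempty := by
  have hn : 0 < (e 0 - a 0) ^ 2 + (e 1 - a 1) ^ 2 := by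
    by_contra hc
    refine he ?_
    ext i
    fin_cases i <;> simp only [Fin.zero_eta, Fin.mk_one, Fin.isValue] <;>
      nlinarith [sq_nonneg (e 0 - a 0), sq_nonneg (e 1 - a 1)]
  have hz : ∀ p ∈ convexHull ℝ S, ar a e p = 0 := by
    refine convexHull_min (t := {p | ar a e p = 0}) h ?_
    intro u hu v hv x y _ _ hxy
    simp only [Set.mem_ofPred_eq, ar, PiLp.add_apply, PiLp.smul_apply, smul_eq_mul] at hu hv ⊢
    rw [show y = 1 - x by linarith]
    linear_combination x * hu + (1 - x) * hv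
  have := sep_interior (g := fun p => ar a e p) (c := 0)
    (e := ((e 0 - a 0) ^ 2 + (e 1 - a 1) ^ 2)⁻¹ • !₂[a 1 - e 1, e 0 - a 0]) (fun p ε => by
      simp only [ar, PiLp.add_apply, PiLp.smul_apply, smul_eq_mul, Matrix.cons_val_zero,
        Matrix.cons_val_one]
      field_simp
      ring) (fun p hp => (hz p hp).le) (fun p hp => (hz p hp).ge)
  rw [disjoint_self] at this
  rw [this]
  simp

theorem good (a b c d : E) (hi : (interior (convexHull ℝ ({a, b, c, d} : Set E))).Nonempty) :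
    Good (convexHull ℝ {a, b, c, d}) := by
  have hz : ¬(ar b c d = 0 ∧ ar a c d = 0 ∧ ar a b d = 0 ∧ ar a b c = 0) := by
    rintro ⟨-, h2, h3, h4⟩
    by_cases hb : b = a
    · by_cases hc : c = a
      · by_cases hd : d = a
        · refine flat (a := a) (e := a + EuclideanSpace.single 0 1) (by simp) ?_ hi
          rintro p (rfl | rfl | rfl | rfl) <;> simp [ar, *]
        · refine flat hd ?_ hi
          rintro p (rfl | rfl | rfl | rfl) <;> simp [ar, *, mul_comm]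
      · refine flat hc ?_ hi
        rintro p (rfl | rfl | rfl | rfl)
        · simp [ar]
        · simp [ar, hb]
        · simp [ar, mul_comm]
        · exact h2
    · refine flat hb ?_ hi
      rintro p (rfl | rfl | rfl | rfl)
      · simp [ar]
      · simp [ar, mul_comm]
      · exact h4
      · exact h3
  have z : ∀ u v : ℝ, u ^ 2 ≤ v ^ 2 → v = 0 → u = 0 := fun u v h e => by
    rw [e] at h
    exact pow_eq_zero_iff (two_ne_zero) |>.1 (le_antisymm (by simpa using h) (sq_nonneg u))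
  have : (ar b c d ^ 2 ≤ ar a b c ^ 2 ∧ ar a c d ^ 2 ≤ ar a b c ^ 2 ∧ ar a b d ^ 2 ≤ ar a b c ^ 2) ∨
      (ar b c d ^ 2 ≤ ar a b d ^ 2 ∧ ar a c d ^ 2 ≤ ar a b d ^ 2 ∧ ar a b c ^ 2 ≤ ar a b d ^ 2) ∨
      (ar b c d ^ 2 ≤ ar a c d ^ 2 ∧ ar a b d ^ 2 ≤ ar a c d ^ 2 ∧ ar a b c ^ 2 ≤ ar a c d ^ 2) ∨
      (ar a c d ^ 2 ≤ ar b c d ^ 2 ∧ ar a b d ^ 2 ≤ ar b c d ^ 2 ∧ ar a b c ^ 2 ≤ ar b c d ^ 2) := by
    generalize ar b c d ^ 2 = x1
    generalize ar a c d ^ 2 = x2
    generalize ar a b d ^ 2 = x3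
    generalize ar a b c ^ 2 = x4
    grind
  rcases this with ⟨h1, h2, h3⟩ | ⟨h1, h2, h3⟩ | ⟨h1, h2, h3⟩ | ⟨h1, h2, h3⟩
  · exact four (fun e => hz ⟨z _ _ h1 e, z _ _ h2 e, z _ _ h3 e, e⟩) h1 h2 h3
  · rw [Set.pair_comm c d]
    refine four (fun e => hz ⟨z _ _ h1 e, z _ _ h2 e, e, z _ _ h3 e⟩) ?_ ?_ h3
    · convert h1 using 1
      simp only [ar]
      ring
    · convert h2 using 1
      simp only [ar]
      ring
  · rw [Set.insert_comm b, Set.pair_comm b d]
    refine four (fun e => hz ⟨z _ _ h1 e, e, z _ _ h2 e, z _ _ h3 e⟩) ?_ ?_ ?_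
    · convert h1 using 1
      simp only [ar]
      ring
    · convert h2 using 1
      simp only [ar]
      ring
    · convert h3 using 1
      simp only [ar]
      ring
  · rw [Set.insert_comm a, Set.insert_comm a, Set.pair_comm a d]
    refine four (fun e => hz ⟨e, z _ _ h1 e, z _ _ h2 e, z _ _ h3 e⟩) ?_ ?_ ?_
    · convert h1 using 1
      simp only [ar]
      ring
    · convert h2 using 1
      simp only [ar]
      ring
    · convert h3 using 1
      simp only [ar]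
      ring

end Pool.Agent.MP_34f9b1_co.Quad
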