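import Pool.Agent.MP_34f9b1_co.Quad.Nfd
import Pool.Agent.MP_34f9b1_co.Quad.Chk

namespace Pool.Agent.MP_34f9b1_co.Quad

/-- The area left after the three largest pieces. -/
noncomputable def rR (s x y z : ℝ) : ℝ := (1 - s / 2) * (1 / 2 - x ^ 2 - y ^ 2 - z ^ 2)

/-- Capacity of the strategy with the largest piece at the apex. -/
noncomputable def pB (s x y z g : ℝ) : ℝ :=
  g * (1 - y - (1 - s / 2) * z) + (1 - s) * (1 - z) * (1 - x - y - g) +
    s * ((1 - y) ^ 2 - x ^ 2) / 2 - s * g * (1 - y) - s / 256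

/-- Capacity of the rows above the bottom row, times `1 + s`. -/
noncomputable def pA (s x f : ℝ) : ℝ :=
  (1 + s) * ((1 - s) * (1 - f) * (1 - x - f) + s * (1 - x - f) ^ 2 / 2) -
    s * (1 - s) * (1 - f) ^ 2 / 2

theorem H_nonpos {s x y z f : ℝ} {m : ℕ → ℝ} (hm : ∀ j, 0 ≤ m j) (h0 : z ≤ y) (h1 : y ≤ x)
    (h2 : x ^ 2 + y ^ 2 + z ^ 2 ≤ 1 / 2) (h3 : x + y ≤ 1) (h4 : pB s x y z z ≤ rR s x y z)
    (h5 : pB s x y z (1 - x - y) ≤ rR s x y z)
    (h : (m 8 = 0 ∧ m 9 = 0 ∧ m 10 = 0 ∧ m 11 = 0 ∧ 1 - x ≤ (1 - s / 2) * (y + z) ∧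
        pA s x z ≤ (1 + s) * rR s x y z) ∨
      (m 6 = 0 ∧ m 7 = 0 ∧ (1 - s / 2) * (y + z) ≤ 1 - x ∧ f ≤ z ∧
        pA s x f + (1 + s) * ((1 - s / 2) * f ^ 2) ≤ (1 + s) * rR s x y z ∧
        pA s x f + (1 + s) * (f * (1 - x - (1 - s / 2) * (y + z) - s * f / 2)) ≤
          (1 + s) * rR s x y z)) :
    H m (1024 * s) (1024 * x) (1024 * y) (1024 * z) (1024 * f) ≤ 0 := by
  have k0 := mul_nonneg (hm 0) (sub_nonneg.2 h0)
  have k1 := mul_nonneg (hm 1) (sub_nonneg.2 h1)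
  have k2 := mul_nonneg (hm 2) (sub_nonneg.2 h2)
  have k3 := mul_nonneg (hm 3) (sub_nonneg.2 h3)
  have k4 := mul_nonneg (hm 4) (sub_nonneg.2 h4)
  have k5 := mul_nonneg (hm 5) (sub_nonneg.2 h5)
  rcases h with ⟨e1, e2, e3, e4, h6, h7⟩ | ⟨e1, e2, h8, h11, h9, h10⟩
  · have k6 := mul_nonneg (hm 6) (sub_nonneg.2 h6)
    have k7 := mul_nonneg (hm 7) (sub_nonneg.2 h7)
    simp only [H, hA, hB, c2, r4, e1, e2, e3, e4]
    simp only [pA, pB, rR] at k4 k5 k7
    linarith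
  · have k8 := mul_nonneg (hm 8) (sub_nonneg.2 h8)
    have k9 := mul_nonneg (hm 9) (sub_nonneg.2 h9)
    have k10 := mul_nonneg (hm 10) (sub_nonneg.2 h10)
    have k11 := mul_nonneg (hm 11) (sub_nonneg.2 h11)
    simp only [H, hA, hB, c2, r4, e1, e2]
    simp only [pA, pB, rR] at k4 k5 k9 k10
    linarith

section strat
variable {K : Set (ℝ × ℝ)} {s x y z : ℝ} {t : List ℝ} (hK : NF K s)
  (hs : (x :: y :: z :: t).Pairwise (· ≥ ·)) (hl : ∀ a ∈ x :: y :: z :: t, 0 ≤ a)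
  (hA2 : x ^ 2 + y ^ 2 + z ^ 2 + sq2 t ≤ 1 / 2)
include hK hs hl hA2

omit hK in
theorem facts : 0 ≤ z ∧ z ≤ y ∧ y ≤ x ∧ x < 1 ∧ x + y ≤ 1 ∧ (z :: t).Pairwise (· ≥ ·) ∧
    (y :: z :: t).Pairwise (· ≥ ·) ∧ ∀ a ∈ t, 0 ≤ a := by
  obtain ⟨h1, h2⟩ := List.pairwise_cons.1 hs
  obtain ⟨h3, h4⟩ := List.pairwise_cons.1 h2
  have := sq2_nonneg t
  exact ⟨hl z (by simp), h3 z (by simp), h1 y (by simp), by nlinarith,
    by nlinarith [sq_nonneg (x - y), sq_nonneg z], h4, h2, fun a ha => hl a (by simp [ha])⟩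

omit hs hl in
theorem rest : (1 - s / 2) * sq2 t ≤ rR s x y z :=
  mul_le_mul_of_nonneg_left (by linarith) (by linarith [hK.s1])

theorem strat0 (hx : x ≤ 11 / 32 ∨ 5 / 8 ≤ x) : Pk K (x :: y :: z :: t) 0 1 := by
  obtain ⟨z0, zy, yx, x1, xy, p1, p2, t0⟩ := facts hs hl hA2
  have s0 := hK.s0
  have s1 := hK.s1
  have := nfd hK le_rfl _ (y :: z :: t) x 0 le_rfl hs (fun a ha => hl a (List.mem_cons_of_mem _ ha))
    (by linarith) x1 le_rfl (by linarith) (pot_top s0 s1 (by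
      have k0 := sq2_nonneg (y :: z :: t)
      have k1 : sq2 (y :: z :: t) ≤ 1 / 2 - x ^ 2 := by
        rw [sq2_cons, sq2_cons]
        linarith
      have k2 : 9 / 8 * (1 / 2 - x ^ 2) ≤ (1 - x) ^ 2 := by
        rcases hx with hx | hx <;> nlinarith
      have k3 := mul_nonneg k0 (sq_nonneg (s - 1 / 2))
      linarith))
  simpa using this

theorem stratA1 (h : (1 + s) * rR s x y z ≤ pA s x z) : Pk K (x :: y :: z :: t) 0 1 := by
  obtain ⟨z0, zy, yx, x1, xy, p1, p2, t0⟩ := facts hs hl hA2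
  have s0 := hK.s0
  have s1 := hK.s1
  have R1 := row (o := [y]) (L := 1 - x) hK (show 0 ≤ x by linarith) x1 le_rfl (by linarith)
    (by linarith) (by nlinarith) (List.pairwise_singleton _ _)
    (by simp only [List.mem_singleton, forall_eq]; exact ⟨by linarith, yx⟩)
    (show 0 + y ≤ 1 - x by linarith)
  have R2 := nfd hK le_rfl _ t z (0 + x) le_rfl p1 t0 z0 (by linarith) (by linarith) (by linarith)
    (pot_top s0 s1 (by
      have := mul_le_mul_of_nonneg_left (rest hK hA2) (show 0 ≤ 1 + s by linarith)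
      simp only [pA] at h
      linarith))
  simpa using R1.stack R2 (by linarith) (by linarith)

theorem stratA2 (hc : (1 - s / 2) * (y + z) ≤ 1 - x)
    (h : ∀ f, 0 ≤ f → f ≤ z → (1 + s) * rR s x y z ≤ pA s x f + (1 + s) * ((1 - s / 2) * f ^ 2) ∨
      (1 + s) * rR s x y z ≤
        pA s x f + (1 + s) * (f * (1 - x - (1 - s / 2) * (y + z) - s * f / 2))) :
    Pk K (x :: y :: z :: t) 0 1 := by
  obtain ⟨z0, zy, yx, x1, xy, p1, p2, t0⟩ := facts hs hl hA2
  have s0 := hK.s0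
  have s1 := hK.s1
  have R0 : ∀ o : List ℝ, (y :: z :: o).Pairwise (· ≥ ·) → (∀ a ∈ o, a ∈ t) →
      ok s (1 - x) (0 + (1 - s / 2) * (y + z)) o → Pk K (x :: y :: z :: o) 0 (0 + x) :=
    fun o h1 h2 h3 => row (L := 1 - x) hK (show 0 ≤ x by linarith) x1 le_rfl (by linarith)
      (by linarith) (by nlinarith) h1 (fun a ha => by
        have : a ∈ y :: z :: t := by
          simp only [List.mem_cons] at ha ⊢
          rcases ha with e | e | e
          · exact Or.inl e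
          · exact Or.inr (Or.inl e)
          · exact Or.inr (Or.inr (h2 a e))
        exact ⟨hl a (List.mem_cons_of_mem _ this), (List.pairwise_cons.1 hs).1 a this⟩)
      ⟨by linarith, by linarith, h3⟩
  rcases split s0 (1 - x) t (0 + (1 - s / 2) * (y + z)) t0 with k | ⟨o, f, r, rfl, k, hf⟩
  · exact (R0 t p2 (fun _ h => h) k).mono (by linarith)
  · obtain ⟨q1, q2, q3⟩ := List.pairwise_append.1
      (show ((y :: z :: o) ++ f :: r).Pairwise (· ≥ ·) from p2)
    have f0 := t0 f (by simp)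
    have fz : f ≤ z := q3 z (by simp) f (by simp)
    obtain ⟨a1, a2⟩ := sq2_split f0 r o fun a ha => q3 a (by simp [ha]) f (by simp)
    have hm : 0 ≤ 1 - s / 2 := by linarith
    have a3 := (mul_le_mul_of_nonneg_left a1 hm).trans (rest hK hA2)
    have a4 := mul_le_mul_of_nonneg_left hf.le f0
    have a5 := mul_nonneg hm (mul_nonneg f0 a2)
    have hp : 0 ≤ 1 + s := by linarith
    have R2 := nfd hK le_rfl _ r f (0 + x) le_rfl q2 (fun a ha => t0 a (by simp [ha])) f0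
      (by linarith) (by linarith) (by linarith) (pot_top s0 s1 (by
        have b1 := mul_le_mul_of_nonneg_left
          (show (1 - s / 2) * f ^ 2 + (1 - s / 2) * sq2 r ≤ rR s x y z by linarith) hp
        have b2 := mul_le_mul_of_nonneg_left
          (show f * (1 - x - (1 - s / 2) * (y + z) - s * f / 2) + (1 - s / 2) * sq2 r ≤
            rR s x y z by linarith) hp
        rcases h f f0 fz with h | h <;> simp only [pA] at h <;> linarith))
    simpa using (R0 o q1 (fun a ha => by simp [ha]) k).stack R2 (by linarith) (by linarith)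

theorem stratB (hx : 11 / 32 ≤ x)
    (h : ∀ g, g ≤ z → g ≤ 1 - x - y → rR s x y z ≤ pB s x y z g) :
    Pk K ((y :: z :: t) ++ [x]) 0 1 := by
  obtain ⟨z0, zy, yx, x1, xy, p1, p2, t0⟩ := facts hs hl hA2
  have s0 := hK.s0
  have s1 := hK.s1
  have Rx := row (o := []) (L := 0) (Y := 1 - x) hK (show 0 ≤ x by linarith) x1 (by linarith) le_rfl
    (by nlinarith) (by linarith) List.Pairwise.nil (by simp) trivial
  rw [sub_add_cancel] at Rx
  refine Pk.stack (Z := 1 - x) ?_ Rx (by linarith) (by linarith)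
  have zt : ∀ a ∈ z :: t, 0 ≤ a := fun a ha =>
    hl a (List.mem_cons_of_mem _ (List.mem_cons_of_mem _ ha))
  have R0 : ∀ o : List ℝ, o.Pairwise (· ≥ ·) → (∀ a ∈ o, a ∈ z :: t) → ok s (1 - y) 0 o →
      Pk K (y :: o) 0 (0 + y) :=
    fun o h1 h2 h3 => row (L := 1 - y) hK (show 0 ≤ y by linarith) (by linarith) le_rfl
      (by linarith) (by linarith) (by nlinarith) h1
      (fun a ha => ⟨zt a (h2 a ha), (List.pairwise_cons.1 p2).1 a (h2 a ha)⟩) h3
  rcases split s0 (1 - y) (z :: t) 0 zt with k | ⟨o, g, r, e, k, hg⟩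
  · exact (R0 _ p1 (fun _ h => h) k).mono (by linarith)
  rcases o with _ | ⟨z', o⟩
  · obtain ⟨rfl, -⟩ := List.cons.inj e
    simp only [List.sum_nil] at hg
    linarith
  obtain ⟨rfl, rfl⟩ := List.cons.inj e
  obtain ⟨q1, q2, q3⟩ := List.pairwise_append.1 (show ((z :: o) ++ g :: r).Pairwise (· ≥ ·) from p1)
  have g0 := t0 g (by simp)
  have gz : g ≤ z := q3 z (by simp) g (by simp)
  obtain ⟨a1, a2⟩ := sq2_split g0 r o fun a ha => q3 a (by simp [ha]) g (by simp)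
  have hm : 0 ≤ 1 - s / 2 := by linarith
  have a3 := (mul_le_mul_of_nonneg_left a1 hm).trans (rest hK hA2)
  rw [List.sum_cons] at hg
  have a4 := mul_le_mul_of_nonneg_left hg.le g0
  have a5 := mul_nonneg hm (mul_nonneg g0 a2)
  have a6 := mul_nonneg hm (sq2_nonneg r)
  have gt : g ≤ 1 - x - y := by
    rcases le_total z (1 - x - y) with c | c
    · linarith
    · have := h _ c le_rfl
      simp only [pB] at this
      exact last (L := 1 - y - (1 - s / 2) * z) (E := rR s x y z) s1 (by linarith) (by linarith)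
        (by linarith) (by linarith)
  have R2 := nfd hK (show 0 ≤ x by linarith) _ r g (0 + y) le_rfl q2
    (fun a ha => t0 a (by simp [ha])) g0 (by linarith) (by linarith) (by linarith)
    (pot_low s0 s1 hx g0 (by
      have b1 := h g gz gt
      have b2 := mul_nonneg (mul_nonneg (sub_nonneg.2 s1) (sub_nonneg.2 gz)) (sub_nonneg.2 gt)
      simp only [pB] at b1
      linarith))
  exact (R0 _ q1 (fun a ha => List.mem_append_left (g :: r) ha) k).stack R2 (by linarith)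
    (by linarith)

theorem pack3 : ∃ l, (x :: y :: z :: t).Perm l ∧ Pk K l 0 1 := by
  obtain ⟨z0, zy, yx, x1, xy, p1, p2, t0⟩ := facts hs hl hA2
  have s0 := hK.s0
  have s1 := hK.s1
  have := sq2_nonneg t
  by_contra hc
  have n1 : ¬Pk K (x :: y :: z :: t) 0 1 := fun h => hc ⟨_, List.Perm.refl _, h⟩
  have hx : ¬(x ≤ 11 / 32 ∨ 5 / 8 ≤ x) := fun h => n1 (strat0 hK hs hl hA2 h)
  push Not at hx
  have nB : ¬∀ g, g ≤ z → g ≤ 1 - x - y → rR s x y z ≤ pB s x y z g := fun h =>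
    hc ⟨_, (List.perm_append_singleton _ _).symm, stratB hK hs hl hA2 hx.1.le h⟩
  push Not at nB
  obtain ⟨g, g1, g2, g3⟩ := nB
  have mono : ∀ g', g ≤ g' → pB s x y z g' ≤ rR s x y z := fun g' h => by
    have b1 := mul_nonneg (sub_nonneg.2 h) (mul_nonneg (sub_nonneg.2 s1) (sub_nonneg.2 zy))
    have b2 := mul_nonneg (sub_nonneg.2 h) (mul_nonneg (show 0 ≤ 1 - s / 2 by linarith) z0)
    simp only [pB] at g3 ⊢
    linarith
  have y2 : y ≤ 1 / 2 := by linarith
  have i0 : ((0 : ℤ) : ℝ) ≤ 1024 * s ∧ 1024 * s ≤ ((1024 : ℤ) : ℝ) := by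
    push_cast
    constructor <;> linarith
  have i1 : ((352 : ℤ) : ℝ) ≤ 1024 * x ∧ 1024 * x ≤ ((640 : ℤ) : ℝ) := by
    push_cast
    constructor <;> linarith [hx.1, hx.2]
  have i2 : ∀ u : ℝ, 0 ≤ u → u ≤ y → ((0 : ℤ) : ℝ) ≤ 1024 * u ∧ 1024 * u ≤ ((512 : ℤ) : ℝ) := by
    intro u h1 h2
    push_cast
    constructor <;> linarith
  rcases le_total (1 - x) ((1 - s / 2) * (y + z)) with c | c
  · have n2 := not_le.1 fun h => n1 (stratA1 hK hs hl hA2 h)
    exact chk_snd _ (f := 1024 * 0) (fun l => H_nonpos (fun j => Nat.cast_nonneg _) zy yx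
      (by linarith) xy (mono _ g1) (mono _ g2)
      (Or.inl ⟨by simp, by simp, by simp, by simp, c, n2.le⟩)) _ _ _ _ _ _ _ _ _ _ _ chk1 le_rfl
      (by norm_num) le_rfl i0 i1 (i2 y (by linarith) le_rfl) (i2 z z0 zy) (by simp)
  · have n2 := mt (stratA2 hK hs hl hA2 c) n1
    push Not at n2
    obtain ⟨f, f0, fz, n3, n4⟩ := n2
    exact chk_snd _ (fun l => H_nonpos (fun j => Nat.cast_nonneg _) zy yx
      (by linarith) xy (mono _ g1) (mono _ g2)
      (Or.inr ⟨by simp, by simp, c, fz, n3.le, n4.le⟩)) _ _ _ _ _ _ _ _ _ _ _ chk2 le_rfl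
      (by norm_num) le_rfl i0 i1 (i2 y (by linarith) le_rfl) (i2 z z0 zy) (i2 f f0 (fz.trans zy))

end strat

end Pool.Agent.MP_34f9b1_co.Quad
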