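import Pool.Agent.MP_34f9b1_co.Quad.Row

namespace Pool.Agent.MP_34f9b1_co.Quad

/-- The amount `E` is below the capacity of the rows between depth `t` and depth `t0`
(depth is measured from the top) when the current row has height `h`. -/
def Pot (s t0 t h E : ℝ) : Prop :=
  ∀ w, 0 ≤ w → t0 + s * w ≤ t → E ≤ (1 - s) * (1 - h) * (t - (t0 + s * w)) +
    s * (t ^ 2 - (t0 + s * w) ^ 2) / 2 + t0 * w + s * w ^ 2 / 2

theorem last {s τ f L E : ℝ} (s1 : s ≤ 1) (hτ : 0 ≤ τ)
    (h1 : E ≤ τ * (L - s * τ / 2)) (h2 : f * (L - s * f / 2) ≤ E) (h3 : (1 - s / 2) * f ^ 2 ≤ E) :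
    f ≤ τ := by
  by_contra hc
  have hc : τ < f := not_le.1 hc
  have hf : 0 < f := by linarith
  by_cases hL : L ≤ s * (f + τ) / 2
  · have k1 : τ * (L - s * τ / 2) ≤ τ * (s * f / 2) := mul_le_mul_of_nonneg_left (by linarith) hτ
    have k2 : 0 < (1 - s / 2) * (f * (f - τ)) := mul_pos (by linarith) (mul_pos hf (by linarith))
    have k3 : 0 ≤ (1 - s) * (f * τ) := mul_nonneg (by linarith) (mul_nonneg hf.le hτ)
    nlinarith
  · have := mul_pos (sub_pos.2 hc) (sub_pos.2 (not_le.1 hL))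
    nlinarith

theorem step {s t0 t h f L E E' : ℝ} (s0 : 0 ≤ s) (s1 : s ≤ 1) (h0 : 0 ≤ t0) (ht : t0 ≤ t)
    (f0 : 0 ≤ f) (fh : f ≤ h) (hE : 0 ≤ E')
    (hL : L = (1 - s) * (1 - h) + s * t ∨ (0 < s ∧ s * L = t ∧ L ≤ (1 - s) * (1 - h) + s * t))
    (h2 : f * (L - s * f / 2) + E' ≤ E) (h3 : (1 - s / 2) * f ^ 2 + E' ≤ E) (hP : Pot s t0 t h E) :
    f ≤ t - t0 ∧ Pot s t0 (t - f) f E' := by
  have ha : 0 ≤ (1 - s) * (h - f) := mul_nonneg (by linarith) (by linarith)
  rcases hL with hL | ⟨sp, hL, hL'⟩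
  · refine ⟨last (L := L) (E := E) s1 (by linarith) ?_ (by linarith) (by linarith),
      fun w hw hv => ?_⟩
    · have := hP 0 le_rfl (by linarith)
      rw [hL]
      linarith
    · have := hP w hw (by linarith)
      have := mul_nonneg ha (sub_nonneg.2 hv)
      rw [hL] at h2
      linarith
  · obtain ⟨v, hv⟩ : ∃ v, s * v = t0 := ⟨t0 / s, mul_div_cancel₀ _ sp.ne'⟩
    subst hv hL
    have hvL : v ≤ L := le_of_mul_le_mul_left ht sp
    have hv0 : 0 ≤ v := nonneg_of_mul_nonneg_right h0 sp |> fun k => by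
      by_contra hc
      nlinarith
    have k := hP (L - v) (by linarith) (by linarith)
    have hss : 0 ≤ 1 - s ^ 2 := by nlinarith
    refine ⟨last (L := L) (E := E) s1 (by linarith) ?_ (by linarith) (by linarith),
      fun w hw hv => ?_⟩
    · have := mul_nonneg (mul_nonneg s0 hss) (sq_nonneg (L - v))
      linarith
    · obtain ⟨g, hg⟩ : ∃ g, s * g = f := ⟨f / s, mul_div_cancel₀ _ sp.ne'⟩
      subst hg
      have hg0 : 0 ≤ g := by
        by_contra hc
        nlinarith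
      have hw' : 0 ≤ L - g - (v + w) := by
        by_contra hc
        nlinarith
      have k1 := mul_nonneg (mul_nonneg s0 hss) (sq_nonneg g)
      have k2 : 0 ≤ (1 - s) * (1 - s * g) - (1 - s ^ 2) * (L - g + (v + w)) / 2 := by
        have := mul_nonneg hss hw'
        have := mul_nonneg hss hg0
        linarith
      have k3 := mul_nonneg (mul_nonneg s0 hw') k2
      linarith

theorem nfd {K : Set (ℝ × ℝ)} {s t0 : ℝ} (hK : NF K s) (h0 : 0 ≤ t0) : ∀ (n : ℕ) (l : List ℝ)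
    (h Y : ℝ), l.length ≤ n → (h :: l).Pairwise (· ≥ ·) → (∀ a ∈ l, 0 ≤ a) → 0 ≤ h → h < 1 →
    0 ≤ Y → Y + h ≤ 1 - t0 → Pot s t0 (1 - Y - h) h ((1 - s / 2) * sq2 l) →
    Pk K (h :: l) Y (1 - t0) := by
  have s0 := hK.s0
  have s1 := hK.s1
  intro n
  induction n with
  | zero =>
    intro l h Y hn _ _ k0 k1 hY hh _
    rw [List.length_eq_zero_iff.1 (Nat.le_zero.1 hn)]
    exact (row (L := 0) hK k0 k1 hY le_rfl (by nlinarith) (by linarith) List.Pairwise.nil
      (by simp) trivial).mono hh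
  | succ n ih =>
    intro l h Y hn hs hl k0 k1 hY hh hP
    obtain ⟨hs1, hs2⟩ := List.pairwise_cons.1 hs
    have ha : 0 ≤ (1 - s) * (1 - h) := mul_nonneg (by linarith) (by linarith)
    have ht : 0 ≤ s * (1 - Y - h) := mul_nonneg s0 (by linarith)
    obtain ⟨L, L0, L1, L2, hL⟩ : ∃ L, 0 ≤ L ∧ L + s * Y ≤ 1 - h ∧ s * L + Y ≤ 1 - h ∧
        (L = (1 - s) * (1 - h) + s * (1 - Y - h) ∨
          (0 < s ∧ s * L = 1 - Y - h ∧ L ≤ (1 - s) * (1 - h) + s * (1 - Y - h))) := by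
      by_cases hc : s * ((1 - s) * (1 - h) + s * (1 - Y - h)) ≤ 1 - Y - h
      · exact ⟨_, by linarith, by linarith, by linarith, Or.inl rfl⟩
      · have sp : 0 < s := by
          rcases s0.eq_or_lt with e | e
          · exact absurd (by rw [← e]; linarith) hc
          · exact e
        have e : s * ((1 - Y - h) / s) = 1 - Y - h := mul_div_cancel₀ _ sp.ne'
        have : (1 - Y - h) / s ≤ (1 - s) * (1 - h) + s * (1 - Y - h) :=
          le_of_mul_le_mul_left (by linarith) sp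
        exact ⟨(1 - Y - h) / s, div_nonneg (by linarith) s0, by linarith, by linarith,
          Or.inr ⟨sp, e, this⟩⟩
    rcases split s0 L l 0 hl with k | ⟨o, f, r, rfl, k, hf⟩
    · exact (row hK k0 k1 hY L0 L1 L2 hs2 (fun a ha => ⟨hl a ha, hs1 a ha⟩) k).mono hh
    · obtain ⟨p1, p2, p3⟩ := List.pairwise_append.1 hs2
      have f0 := hl f (by simp)
      have fh : f ≤ h := hs1 f (by simp)
      obtain ⟨q1, q2⟩ := sq2_split f0 r o fun a ha => p3 a ha f (by simp)
      have hm : 0 ≤ 1 - s / 2 := by linarith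
      have q3 := mul_le_mul_of_nonneg_left q1 hm
      have q4 := mul_le_mul_of_nonneg_left hf.le f0
      have q5 := mul_nonneg hm (mul_nonneg f0 q2)
      obtain ⟨c1, c2⟩ := step (E' := (1 - s / 2) * sq2 r) s0 s1 h0 (by linarith) f0 fh
        (mul_nonneg hm (sq2_nonneg r)) hL (by linarith) (by linarith) hP
      have R1 := row hK k0 k1 hY L0 L1 L2 p1
        (fun a ha => ⟨hl a (by simp [ha]), hs1 a (by simp [ha])⟩) k
      have R2 := ih r f (Y + h) (by simp at hn; omega) p2 (fun a ha => hl a (by simp [ha])) f0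
        (by linarith) (by linarith) (by linarith) (by convert c2 using 1; ring)
      exact R1.stack R2 (by linarith) hh

theorem pot_top {s t h E : ℝ} (s0 : 0 ≤ s) (s1 : s ≤ 1)
    (hE : (1 + s) * E ≤ (1 + s) * ((1 - s) * (1 - h) * t + s * t ^ 2 / 2) -
      s * (1 - s) * (1 - h) ^ 2 / 2) : Pot s 0 t h E := by
  intro w _ _
  have := mul_nonneg (mul_nonneg s0 (sub_nonneg.2 s1)) (sq_nonneg ((1 + s) * w - (1 - h)))
  refine le_of_mul_le_mul_left ?_ (show 0 < 1 + s by linarith)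
  linarith

theorem pot_low {s x t h E : ℝ} (s0 : 0 ≤ s) (s1 : s ≤ 1) (hx : 11 / 32 ≤ x) (h0 : 0 ≤ h)
    (hE : E ≤ (1 - s) * (1 - h) * (t - x) + s * (t ^ 2 - x ^ 2) / 2 - s / 256) : Pot s x t h E := by
  intro w hw _
  have u0 : 0 ≤ 1 - s := by linarith
  have k1 : 0 ≤ (1 - s) * w * ((x - 11 / 32) * (1 + s) + s * h) :=
    mul_nonneg (mul_nonneg u0 hw) (by nlinarith [mul_nonneg s0 h0])
  have k2 : 0 ≤ (1 - s) * (w * (11 / 32 * (1 + s) - s) + s * (1 + s) * w ^ 2 / 2) + s / 256 := by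
    by_cases hs : s ≤ 1 / 2
    · have := mul_nonneg u0 (show 0 ≤ w * (11 / 32 * (1 + s) - s) + s * (1 + s) * w ^ 2 / 2 by
        have := mul_nonneg hw (show 0 ≤ 11 / 32 * (1 + s) - s by linarith)
        positivity)
      linarith
    · have sp : 0 < s * (1 + s) := by nlinarith
      have j1 := mul_nonneg u0 (sq_nonneg (s * (1 + s) * w + (11 / 32 * (1 + s) - s)))
      have j2 : (1 - s) * (11 / 32 * (1 + s) - s) ^ 2 ≤ s ^ 2 * (1 + s) / 128 := by
        nlinarith [mul_nonneg s0 (sq_nonneg (s - 3 / 4)), sq_nonneg (s - 3 / 4)]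
      refine le_of_mul_le_mul_left ?_ sp
      linarith
  linarith

end Pool.Agent.MP_34f9b1_co.Quad
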